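import Pool.Agent.H96gur.Space

set_option autoImplicit false

namespace Pool.Agent.H96gur

universe u v

open Set

section Small

variable {C J : Type u}

/-- a set covered by a `J`-indexed family -/
def Small (J : Type u) {C : Type u} (A : Set C) : Prop := ∃ g : J → C, A ⊆ range g

theorem equiv_nat (J : Type u) [Infinite J] : Nonempty (J ≃ J × ℕ) := by
  rw [← Cardinal.lift_mk_eq']
  simp [Cardinal.mul_aleph0_eq]

theorem equiv_self (J : Type u) [Infinite J] : Nonempty (J ≃ J × J) := by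
  rw [← Cardinal.eq]
  simp

theorem Small.mono {A B : Set C} (h : Small J B) (hA : A ⊆ B) : Small J A := by
  obtain ⟨g, hg⟩ := h
  exact ⟨g, hA.trans hg⟩

theorem Small.iUnion_nat [Infinite J] {A : ℕ → Set C} (h : ∀ n, Small J (A n)) :
    Small J (⋃ n, A n) := by
  choose g hg using h
  obtain ⟨e⟩ := equiv_nat J
  refine ⟨fun j => g (e j).2 (e j).1, ?_⟩
  rintro x hx
  obtain ⟨n, hn⟩ := mem_iUnion.1 hx
  obtain ⟨j, hj⟩ := hg n hn
  exact ⟨e.symm (j, n), by simp [hj]⟩

theorem Small.iUnion_self [Infinite J] {A : J → Set C} (h : ∀ n, Small J (A n)) :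
    Small J (⋃ n, A n) := by
  choose g hg using h
  obtain ⟨e⟩ := equiv_self J
  refine ⟨fun j => g (e j).2 (e j).1, ?_⟩
  rintro x hx
  obtain ⟨n, hn⟩ := mem_iUnion.1 hx
  obtain ⟨j, hj⟩ := hg n hn
  exact ⟨e.symm (j, n), by simp [hj]⟩

theorem Small.of_countable [Infinite J] [Nonempty C] {A : Set C} (h : A.Countable) :
    Small J A := by
  obtain ⟨f, hf⟩ := countable_iff_exists_subset_range.1 h
  let e := Infinite.natEmbedding J
  refine ⟨f ∘ Function.invFun e, hf.trans ?_⟩
  rw [range_comp, (Function.invFun_surjective e.injective).range_eq, image_univ]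

theorem Small.union [Infinite J] {A B : Set C} (hA : Small J A) (hB : Small J B) :
    Small J (A ∪ B) := by
  refine (Small.iUnion_nat (A := fun n => if n = 0 then A else B) fun n => ?_).mono ?_
  · by_cases h : n = 0
    · simpa [h] using hA
    · simpa [h] using hB
  · rintro x (h | h)
    · exact mem_iUnion.2 ⟨0, by simpa using h⟩
    · exact mem_iUnion.2 ⟨1, by simpa using h⟩

theorem Small.exists_range {A : Set C} (h : Small J A) (hA : A.Nonempty) :
    ∃ g : J → C, range g = A := by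
  classical
  obtain ⟨g, hg⟩ := h
  obtain ⟨a, ha⟩ := hA
  refine ⟨fun j => if g j ∈ A then g j else a, ?_⟩
  apply subset_antisymm
  · rintro _ ⟨j, rfl⟩
    by_cases hj : g j ∈ A
    · simp [hj]
    · simp [hj, ha]
  · intro x hx
    obtain ⟨j, rfl⟩ := hg hx
    exact ⟨j, by simp [hx]⟩

/-- direct dependencies of a code -/
def deps (S : Sys C J) (c : C) : Set C :=
  {i | ∃ F, S.dec c = some F ∧ ∃ j, i ∈ (F j).1.support}

theorem small_deps [Infinite J] (S : Sys C J) (c : C) : Small J (deps S c) := by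
  haveI : Nonempty C := ⟨c⟩
  rcases h : S.dec c with _ | F
  · refine (Small.of_countable (J := J) (A := (∅ : Set C)) countable_empty).mono ?_
    rintro i ⟨F, hF, -⟩
    rw [h] at hF
    cases hF
  · refine (Small.iUnion_self (J := J) (A := fun j => ((F j).1.support : Set C)) fun j =>
      Small.of_countable (Finset.countable_toSet _)).mono ?_
    rintro i ⟨G, hG, j, hj⟩
    rw [h] at hG
    cases hG
    exact mem_iUnion.2 ⟨j, hj⟩

/-- one closing-off step -/
def hstep (S : Sys C J) (A : Set C) : Set C := A ∪ ⋃ c ∈ A, deps S c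

theorem small_hstep [Infinite J] (S : Sys C J) {A : Set C} (hA : Small J A) :
    Small J (hstep S A) := by
  obtain ⟨g, hg⟩ := hA
  refine (Small.union (J := J) (B := ⋃ j, deps S (g j)) ⟨g, hg⟩
    (Small.iUnion_self fun j => small_deps S (g j))).mono ?_
  rintro x (h | h)
  · exact Or.inl h
  · obtain ⟨c, hc, hx⟩ := mem_iUnion₂.1 h
    obtain ⟨j, rfl⟩ := hg hc
    exact Or.inr (mem_iUnion.2 ⟨j, hx⟩)

/-- hereditary closure -/
def hcl (S : Sys C J) (A : Set C) : Set C := ⋃ n : ℕ, (hstep S)^[n] A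

theorem small_hcl [Infinite J] (S : Sys C J) {A : Set C} (hA : Small J A) :
    Small J (hcl S A) := by
  refine Small.iUnion_nat fun n => ?_
  induction n with
  | zero => simpa using hA
  | succ n ih => rw [Function.iterate_succ_apply']; exact small_hstep S ih

theorem subset_hcl (S : Sys C J) (A : Set C) : A ⊆ hcl S A := fun x hx =>
  mem_iUnion.2 ⟨0, by simpa using hx⟩

theorem hcl_closed (S : Sys C J) (A : Set C) {c : C} (hc : c ∈ hcl S A)
    {G : J → (C →₀ ℝ) × ℝ} (hG : S.dec c = some G) (j : J) {i : C}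
    (hi : i ∈ (G j).1.support) : i ∈ hcl S A := by
  obtain ⟨n, hn⟩ := mem_iUnion.1 hc
  refine mem_iUnion.2 ⟨n + 1, ?_⟩
  rw [Function.iterate_succ_apply']
  exact Or.inr (mem_iUnion₂.2 ⟨c, hn, G, hG, j, hi⟩)

end Small

section W

variable {C J : Type u}

/-- codes of types -/
abbrev Ty (J : Type u) : Type u := Set ((J → ℝ) × ℝ)

/-- arities -/
def ar (J : Type u) : Option (Ty J × J) → Type u
  | none => PEmpty
  | some _ => J ⊕ J

/-- the evaluation of terms -/
def evW (c₀ : C) (D : (J → C) → (J → C) → Ty J → J → C) : WType (ar J) → C :=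
  WType.elim C fun x => match x with
    | ⟨none, _⟩ => c₀
    | ⟨some p, g⟩ => D (g ∘ Sum.inl) (g ∘ Sum.inr) p.1 p.2

theorem evW_closed (c₀ : C) (D : (J → C) → (J → C) → Ty J → J → C)
    (a b : J → C) (ha : ∀ j, a j ∈ range (evW c₀ D)) (hb : ∀ j, b j ∈ range (evW c₀ D))
    (t : Ty J) (j : J) : D a b t j ∈ range (evW c₀ D) := by
  choose wa hwa using ha
  choose wb hwb using hb
  refine ⟨WType.mk (some (t, j)) (Sum.elim wa wb), ?_⟩
  have h1 : (fun k => evW c₀ D (wa k)) = a := funext hwa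
  have h2 : (fun k => evW c₀ D (wb k)) = b := funext hwb
  conv_rhs => rw [← h1, ← h2]
  rfl

theorem base_mem_range (c₀ : C) (D : (J → C) → (J → C) → Ty J → J → C) :
    c₀ ∈ range (evW c₀ D) :=
  ⟨WType.mk none (fun x => PEmpty.elim x), rfl⟩

open Cardinal in
theorem card_W (J : Type u) [Infinite J] :
    #(WType (ar J)) ≤ 2 ^ (2 ^ #J : Cardinal.{u}) := by
  have hJ : ℵ₀ ≤ #J := aleph0_le_mk J
  have h2 : #J ≤ 2 ^ #J := (cantor _).le
  have h3 : ℵ₀ ≤ 2 ^ #J := hJ.trans h2
  have h4 : (2 ^ #J : Cardinal.{u}) ≤ 2 ^ (2 ^ #J : Cardinal.{u}) := (cantor _).le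
  have h5 : ℵ₀ ≤ 2 ^ (2 ^ #J : Cardinal.{u}) := h3.trans h4
  have hpow : (2 ^ (2 ^ #J : Cardinal.{u}) : Cardinal.{u}) ^ #J =
      2 ^ (2 ^ #J : Cardinal.{u}) := by
    rw [← power_mul, mul_eq_left h3 h2 (mk_ne_zero J)]
  have hR : #(J → ℝ) = 2 ^ #J := by
    rw [mk_arrow]
    simp only [mk_real, lift_continuum, lift_uzero]
    rw [← two_power_aleph0, ← power_mul, aleph0_mul_eq hJ]
  have hT : #(Ty J) = 2 ^ (2 ^ #J : Cardinal.{u}) := by
    rw [mk_set, mk_prod]
    simp only [hR, lift_uzero, mk_real, lift_continuum]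
    have : (𝔠 : Cardinal.{u}) ≤ 2 ^ #J := by
      rw [← two_power_aleph0]
      exact power_le_power_left two_ne_zero hJ
    rw [mul_eq_left h3 this continuum_ne_zero]
  apply WType.cardinalMk_le_of_le
  have h6 : ∀ x : Option (Ty J × J), (2 ^ (2 ^ #J : Cardinal.{u}) : Cardinal.{u}) ^ #(ar J x) ≤
      2 ^ (2 ^ #J : Cardinal.{u}) := by
    rintro (_ | x)
    · simp only [ar, mk_pempty, power_zero]
      exact (one_lt_aleph0.le).trans h5
    · simp only [ar, mk_sum, lift_id]
      rw [add_eq_self hJ, hpow]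
  refine (sum_le_sum _ _ h6).trans ?_
  rw [sum_const', mk_option, mk_prod, lift_id, lift_id, hT]
  rw [mul_eq_left h5 (h2.trans h4) (mk_ne_zero J), add_one_eq h5, mul_eq_self h5]

end W

end Pool.Agent.H96gur
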