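import Pool.Agent.H96gur.Main

set_option autoImplicit false

namespace Pool.Agent.H96gur

universe u v

open Set

open Cardinal in
theorem exists_sys (J : Type u) [Infinite J] : ∃ (C : Type u) (_ : LinearOrder C)
    (_ : WellFoundedLT C) (S : Sys C J) (y₀ : C), Full S ∧
      2 ^ (2 ^ #J : Cardinal.{u}) < #(Bs S) ∧ S.dec y₀ = none ∧ y₀ ≠ S.pt := by
  classical
  have hJ : ℵ₀ ≤ #J := aleph0_le_mk J
  have hJ2 : #J ≤ 2 ^ #J := (cantor _).le
  have h3 : ℵ₀ ≤ 2 ^ #J := hJ.trans hJ2
  have hc : (𝔠 : Cardinal.{u}) ≤ 2 ^ #J := by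
    rw [← two_power_aleph0]
    exact power_le_power_left two_ne_zero hJ
  have h4 : (2 ^ #J : Cardinal.{u}) ≤ 2 ^ (2 ^ #J : Cardinal.{u}) := (cantor _).le
  set μ : Cardinal.{u} := 2 ^ (2 ^ #J : Cardinal.{u}) with hμ
  have h5 : ℵ₀ ≤ μ := h3.trans h4
  set lam : Cardinal.{u} := 2 ^ μ with hlam
  have h6 : μ < lam := cantor _
  have h7 : ℵ₀ ≤ lam := h5.trans h6.le
  let C : Type u := lam.ord.ToType
  have hC : #C = lam := mk_ord_toType lam
  have hCI : Infinite C := by rw [infinite_iff, hC]; exact h7
  have hIio : ∀ i : C, #(Iio i) < lam := by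
    intro i
    have := mk_Iio_lt i (by simp [C])
    rwa [hC] at this
  have hcof : μ < Order.cof C := by
    have : Order.cof C = lam.ord.cof := Ordinal.cof_toType _
    rw [this]
    exact lt_cof_ord_power h5 (by exact one_lt_two)
  have hbd : ∀ A : Set C, #A ≤ #J → ∃ b : C, ∀ a ∈ A, a < b := by
    intro A hA
    have : ¬ IsCofinal A := by
      intro h
      have := Order.cof_le h
      exact absurd (this.trans (hA.trans (hJ2.trans h4))) (not_le.2 hcof)
    rw [IsCofinal] at this
    push Not at this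
    exact this
  let O : Type u := Option (J → (C →₀ ℝ) × ℝ)
  have hO : #O = lam := by
    have e1 : #(C →₀ ℝ) = lam := by
      rw [mk_finsupp_lift_of_infinite]
      simp only [mk_real, lift_continuum, lift_uzero, hC]
      exact max_eq_left (hc.trans (h4.trans h6.le))
    have e2 : #((C →₀ ℝ) × ℝ) = lam := by
      rw [mk_prod]
      simp only [mk_real, lift_continuum, lift_uzero, e1]
      exact mul_eq_left h7 (hc.trans (h4.trans h6.le)) continuum_ne_zero
    have e3 : #(J → (C →₀ ℝ) × ℝ) = lam := by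
      rw [mk_arrow, lift_id, lift_id, e2, hlam, ← power_mul,
        mul_eq_left h5 (hJ2.trans h4) (mk_ne_zero J)]
    change #(Option _) = lam
    rw [mk_option, e3, add_one_eq h7]
  obtain ⟨e⟩ : Nonempty (C ≃ O × C) := by
    rw [← Cardinal.eq, mk_prod, lift_id, lift_id, hO, hC, mul_eq_self h7]
  have c₀ : C := Classical.arbitrary C
  let S : Sys C J := ⟨fun c => (e c).1, e.symm (none, c₀), by simp⟩
  have hfib : ∀ o : O, lam ≤ #{c : C // S.dec c = o} := by
    intro o
    rw [← hC]
    refine mk_le_of_injective (f := fun x => ⟨e.symm (o, x), by simp [S]⟩) ?_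
    intro x y h
    simpa using h
  have hBs : μ < #(Bs S) := by
    have h8 : #{c : C // S.dec c = none} ≤ #(Bs S) + 1 := by
      have : #(Option (Bs S)) = #(Bs S) + 1 := mk_option
      rw [← this]
      refine mk_le_of_injective (f := fun x => if h : x.1 = S.pt then none else
        some ⟨x.1, x.2, h⟩) ?_
      intro x y h
      by_cases hx : x.1 = S.pt
      · by_cases hy : y.1 = S.pt
        · exact Subtype.ext (hx.trans hy.symm)
        · simp [hx, hy] at h
      · by_cases hy : y.1 = S.pt
        · simp [hx, hy] at h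
        · simp only [hx, hy, dite_false, Option.some.injEq, Subtype.mk.injEq] at h
          exact Subtype.ext h
    by_contra hcon
    have h9 := (hfib none).trans (h8.trans (add_le_add_left (not_lt.1 hcon) 1))
    rw [add_one_eq h5] at h9
    exact absurd h6 (not_lt.2 h9)
  have hne : Nonempty (Bs S) := by
    rw [← mk_ne_zero_iff]
    exact (lt_of_le_of_lt bot_le hBs).ne'
  refine ⟨C, inferInstance, inferInstance, S, hne.some.1, ?_, hBs, hne.some.2.1, hne.some.2.2⟩
  intro F
  have hsm : Small J (⋃ j, ((F j).1.support : Set C)) :=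
    Small.iUnion_self fun j => Small.of_countable (Finset.countable_toSet _)
  obtain ⟨g, hg⟩ := hsm
  obtain ⟨b, hb⟩ := hbd (range g) mk_range_le
  have : ∃ c, S.dec c = some F ∧ b ≤ c := by
    by_contra hcon
    push Not at hcon
    have h10 : #{c : C // S.dec c = some F} ≤ #(Iio b) :=
      mk_le_of_injective (f := fun x => (⟨x.1, hcon x.1 x.2⟩ : Iio b)) (by
        intro x y h
        exact Subtype.ext (by simpa using h))
    exact absurd ((hfib (some F)).trans h10) (not_le.2 (hIio b))
  obtain ⟨c, hc, hbc⟩ := this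
  exact ⟨c, hc, fun j i hi => (hb i (hg (mem_iUnion.2 ⟨j, hi⟩))).trans_le hbc⟩

theorem main (J : Type u) [Infinite J] : ∃ (X : Type u) (_ : NormedAddCommGroup X)
    (_ : NormedSpace ℝ X) (_ : CompleteSpace X),
    (∀ (T : Type v) [NormedAddCommGroup T] [NormedSpace ℝ T], (∃ d : J → T, DenseRange d) →
      ∀ (P : Submodule ℝ T) (f : P →ₗᵢ[ℝ] X), ∃ g : T →ₗᵢ[ℝ] X, ∀ s : P, g s = f s) ∧
    ∃ x y : X, ‖x‖ = 1 ∧ ‖y‖ = 1 ∧ ∀ g : X ≃ₗᵢ[ℝ] X, g x ≠ y := by
  classical
  obtain ⟨C, _, _, S, y₀, hF, hB, hy, hy'⟩ := exists_sys J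
  have hcl : IsClosed (XX S : Set (Amb S)) := XX_closed S hF
  refine ⟨XX S, inferInstance, inferInstance, hcl.completeSpace_coe, ?_, ?_⟩
  · rintro T _ _ ⟨d, hd⟩ P f
    exact univ_disp S hF d hd P f
  · let si : (C →₀ ℝ) → XX S := fun w => ⟨io S w, LinearMap.mem_range_self _ _⟩
    have hpl : ∀ φ ∈ KK S, ∀ c, S.dec c = none → |φ c| ≤ 1 := by
      intro φ hφ c hc
      by_cases h : c = S.pt
      · rw [h]; exact hφ.1.1
      · simpa using hφ.1.2 {c} (by simp [hc, h])
    -- base functionals
    have hfun : ∀ c, S.dec c = none → ∃ φ ∈ KK S, φ S.pt = 1 ∧ φ c = 1 ∧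
        ∀ d, S.dec d = none → d ≠ S.pt → d ≠ c → φ d = 0 := by
      intro c hc
      obtain ⟨φ, hφ, he⟩ := exists_ext S {d | S.dec d = none}
        (fun d hd hg => absurd hg (not_good_base S hd))
        (fun d => if d = S.pt ∨ d = c then 1 else 0) (by
          refine ⟨by simp [S.dec_pt], fun s hs => ?_⟩
          rw [Finset.sum_congr rfl (g := fun d => if d = c then (1 : ℝ) else 0) fun d hd => by
            have h1 := (hs d hd).1
            have h2 := (hs d hd).2
            by_cases h : d = c
            · subst h; simp [h1]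
            · simp [h1, h2, h]]
          rw [Finset.sum_ite_eq' s c]
          split_ifs <;> norm_num)
        (fun d hd => ⟨fun hg => absurd hg (not_good_base S hd), fun _ h => absurd hd h⟩)
      refine ⟨φ, hφ, by rw [he _ S.dec_pt]; simp, by rw [he _ hc]; simp, ?_⟩
      intro d hd h1 h2
      rw [he _ hd]
      simp [h1, h2]
    have hn1 : ∀ c, S.dec c = none → ‖io S (Finsupp.single c 1)‖ = 1 := by
      intro c hc
      refine le_antisymm (norm_io_le S fun φ hφ => by rw [ev_single]; exact hpl φ hφ c hc) ?_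
      obtain ⟨φ, hφ, -, h1, -⟩ := hfun c hc
      have := le_norm_io S (Finsupp.single c 1) hφ
      rwa [ev_single, h1, abs_one] at this
    refine ⟨si (Finsupp.single S.pt 1), si (Finsupp.single y₀ 1), hn1 _ S.dec_pt, hn1 _ hy, ?_⟩
    intro g hg
    have hv : ∀ γ : Bs S, ∃ w, io S w = (g (si (Finsupp.single γ.1 1)) : Amb S) :=
      fun γ => (g (si (Finsupp.single γ.1 1))).2
    choose v hv using hv
    have hg' : (g (si (Finsupp.single S.pt 1)) : Amb S) = io S (Finsupp.single y₀ 1) :=
      congrArg Subtype.val hg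
    have key1 : ∀ γ δ : Bs S, io S (v γ - v δ) =
        (g (si (Finsupp.single γ.1 1 - Finsupp.single δ.1 1)) : Amb S) := by
      intro γ δ
      have : si (Finsupp.single γ.1 1 - Finsupp.single δ.1 1) =
          si (Finsupp.single γ.1 1) - si (Finsupp.single δ.1 1) := by
        apply Subtype.ext
        change io S _ = io S _ - io S _
        rw [map_sub]
      rw [this, map_sub, map_sub, hv, hv]
      rfl
    have hnorm : ∀ w, ‖(g (si w) : Amb S)‖ = ‖io S w‖ := fun w => g.norm_map _
    refine core S hB y₀ hy hy' v ?_ ?_ ?_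
    · intro γ δ hne
      have h1 : io S (Finsupp.single y₀ 1 + (v γ - v δ)) =
          (g (si (Finsupp.single S.pt 1 + (Finsupp.single γ.1 1 - Finsupp.single δ.1 1))) :
            Amb S) := by
        have : si (Finsupp.single S.pt 1 + (Finsupp.single γ.1 1 - Finsupp.single δ.1 1)) =
            si (Finsupp.single S.pt 1) + si (Finsupp.single γ.1 1 - Finsupp.single δ.1 1) := by
          apply Subtype.ext
          change io S _ = io S _ + io S _
          rw [map_add]
        rw [this, map_add, map_add, key1, ← hg']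
        rfl
      rw [h1, hnorm]
      obtain ⟨φ, hφ, h2, h3, h4⟩ := hfun γ.1 γ.2.1
      have h5 := le_norm_io S
        (Finsupp.single S.pt 1 + (Finsupp.single γ.1 1 - Finsupp.single δ.1 1)) hφ
      rw [map_add, map_sub, ev_single, ev_single, ev_single, h2, h3,
        h4 δ.1 δ.2.1 δ.2.2 (fun h => hne (Subtype.ext h.symm))] at h5
      refine le_trans (by norm_num) h5
    · intro γ δ
      rw [key1, hnorm]
      refine norm_io_le S fun φ hφ => ?_
      rw [map_sub, ev_single, ev_single]
      by_cases h : γ = δ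
      · rw [h, sub_self, abs_zero]; exact zero_le_one
      · have h1 := hφ.1.2 {γ.1, δ.1} (by
          intro c hc
          rcases Finset.mem_insert.1 hc with rfl | hc
          · exact γ.2
          · rw [Finset.mem_singleton.1 hc]; exact δ.2)
        rw [Finset.sum_pair (fun h' => h (Subtype.ext h'))] at h1
        exact (abs_sub _ _).trans h1
    · intro γ₁ γ₂ γ₃ γ₄ d12 d13 d14 d23 d24 d34
      have h1 : io S ((v γ₁ - v γ₂) + (v γ₃ - v γ₄)) =
          (g (si ((Finsupp.single γ₁.1 1 - Finsupp.single γ₂.1 1) +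
            (Finsupp.single γ₃.1 1 - Finsupp.single γ₄.1 1))) : Amb S) := by
        have : si ((Finsupp.single γ₁.1 1 - Finsupp.single γ₂.1 1) +
            (Finsupp.single γ₃.1 1 - Finsupp.single γ₄.1 1)) =
            si (Finsupp.single γ₁.1 1 - Finsupp.single γ₂.1 1) +
            si (Finsupp.single γ₃.1 1 - Finsupp.single γ₄.1 1) := by
          apply Subtype.ext
          change io S _ = io S _ + io S _
          rw [map_add]
        rw [this, map_add, map_add, key1, key1]
        rfl
      rw [h1, hnorm]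
      refine norm_io_le S fun φ hφ => ?_
      rw [map_add, map_sub, map_sub, ev_single, ev_single, ev_single, ev_single]
      have e12 : γ₁.1 ≠ γ₂.1 := fun h => d12 (Subtype.ext h)
      have e13 : γ₁.1 ≠ γ₃.1 := fun h => d13 (Subtype.ext h)
      have e14 : γ₁.1 ≠ γ₄.1 := fun h => d14 (Subtype.ext h)
      have e23 : γ₂.1 ≠ γ₃.1 := fun h => d23 (Subtype.ext h)
      have e24 : γ₂.1 ≠ γ₄.1 := fun h => d24 (Subtype.ext h)
      have e34 : γ₃.1 ≠ γ₄.1 := fun h => d34 (Subtype.ext h)
      have h2 := hφ.1.2 {γ₁.1, γ₂.1, γ₃.1, γ₄.1} (by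
        intro c hc
        simp only [Finset.mem_insert, Finset.mem_singleton] at hc
        rcases hc with rfl | rfl | rfl | rfl
        · exact γ₁.2
        · exact γ₂.2
        · exact γ₃.2
        · exact γ₄.2)
      rw [Finset.sum_insert (by simp [e12, e13, e14]), Finset.sum_insert (by simp [e23, e24]),
        Finset.sum_pair e34] at h2
      rw [abs_le]
      constructor
      · linarith [neg_abs_le (φ γ₁.1), le_abs_self (φ γ₂.1), neg_abs_le (φ γ₃.1),
          le_abs_self (φ γ₄.1)]
      · linarith [le_abs_self (φ γ₁.1), neg_abs_le (φ γ₂.1), le_abs_self (φ γ₃.1),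
          neg_abs_le (φ γ₄.1)]

end Pool.Agent.H96gur
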