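import Pool.Agent.H96gur.Core

set_option autoImplicit false

namespace Pool.Agent.H96gur

universe u v

open Set

variable {C J : Type u} [LinearOrder C] [WellFoundedLT C] [Infinite J]

/-- base codes other than the marked point -/
abbrev Bs (S : Sys C J) : Type u := {c : C // S.dec c = none ∧ c ≠ S.pt}

/-- the type of a vector over an enumerated set of codes -/
def code (S : Sys C J) (a : J → C) (w : C →₀ ℝ) : Ty J :=
  {p | ∃ ψ ∈ KK S, (∀ j, ψ (a j) = p.1 j) ∧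
    (∀ b, S.dec b = none → b ∉ range a → ψ b = 0) ∧ ev ψ w = p.2}

open Cardinal in
theorem exists_R (S : Sys C J) (hB : 2 ^ (2 ^ #J : Cardinal.{u}) < #(Bs S))
    (v : Bs S → C →₀ ℝ) (hv : Function.Injective v) (D : Bs S → Set C)
    (hDv : ∀ γ, ((v γ).support : Set C) ⊆ D γ) (hDp : ∀ γ, S.pt ∈ D γ)
    (hDs : ∀ γ, Small J (D γ)) :
    ∃ (γ₁ γ₂ γ₃ γ₄ : Bs S) (a : J → C), S.pt ∈ range a ∧
      (range a ⊆ D γ₁ ∧ range a ⊆ D γ₂ ∧ range a ⊆ D γ₃ ∧ range a ⊆ D γ₄) ∧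
      (¬ D γ₁ ⊆ range a ∧ ¬ D γ₂ ⊆ range a ∧ ¬ D γ₃ ⊆ range a ∧ ¬ D γ₄ ⊆ range a) ∧
      (D γ₁ ∩ D γ₂ ⊆ range a ∧ D γ₁ ∩ D γ₃ ⊆ range a ∧ D γ₁ ∩ D γ₄ ⊆ range a ∧
        D γ₂ ∩ D γ₃ ⊆ range a ∧ D γ₂ ∩ D γ₄ ⊆ range a ∧ D γ₃ ∩ D γ₄ ⊆ range a) ∧
      (code S a (v γ₂) = code S a (v γ₁) ∧ code S a (v γ₃) = code S a (v γ₁) ∧
        code S a (v γ₄) = code S a (v γ₁)) := by
  classical
  have hne : Nonempty (Bs S) := by
    rw [← mk_ne_zero_iff]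
    exact (lt_of_le_of_lt bot_le hB).ne'
  have γ₀ : Bs S := hne.some
  choose dd hdd using fun γ => (hDs γ).exists_range ⟨S.pt, hDp γ⟩
  let PP : Bs S → (J → C) → (J → C) → Ty J → Prop := fun γ a b t =>
    range a ⊆ D γ ∧ (∀ i ∈ D γ, i ∈ range b → i ∈ range a) ∧ ¬ D γ ⊆ range a ∧
      code S a (v γ) = t
  let Φ : (J → C) → (J → C) → Ty J → Bs S := fun a b t =>
    if h : ∃ γ, PP γ a b t then h.choose else γ₀
  have hΦ : ∀ a b t, (∃ γ, PP γ a b t) → PP (Φ a b t) a b t := by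
    intro a b t h
    have : Φ a b t = h.choose := dif_pos h
    rw [this]
    exact h.choose_spec
  let E : (J → C) → (J → C) → Ty J → J → C := fun a b t j => dd (Φ a b t) j
  set R : Set C := range (evW S.pt E) with hR
  have hRc : #R ≤ 2 ^ (2 ^ #J : Cardinal.{u}) := mk_range_le.trans (card_W J)
  have hRp : S.pt ∈ R := base_mem_range _ _
  have hRcl : ∀ a b : J → C, (∀ j, a j ∈ R) → (∀ j, b j ∈ R) → ∀ t, D (Φ a b t) ⊆ R := by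
    intro a b ha hb t x hx
    rw [← hdd] at hx
    obtain ⟨j, rfl⟩ := hx
    exact evW_closed S.pt E a b ha hb t j
  -- some D is not inside R
  obtain ⟨γ₁, hγ₁⟩ : ∃ γ, ¬ D γ ⊆ R := by
    by_contra hcon
    push Not at hcon
    have hinj : Function.Injective fun γ => (v γ).subtypeDomain (· ∈ R) := by
      intro γ δ h
      apply hv
      refine (Finsupp.subtypeDomain_eq_iff ?_ ?_).1 h
      · exact fun x hx => hcon γ (hDv γ hx)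
      · exact fun x hx => hcon δ (hDv δ hx)
    have h1 : #(Bs S) ≤ #(R →₀ ℝ) := mk_le_of_injective hinj
    have hJ : ℵ₀ ≤ #J := aleph0_le_mk J
    have h2 : #J ≤ 2 ^ #J := (cantor _).le
    have h4 : (2 ^ #J : Cardinal.{u}) ≤ 2 ^ (2 ^ #J : Cardinal.{u}) := (cantor _).le
    have hc : (𝔠 : Cardinal.{u}) ≤ 2 ^ #J := by
      rw [← two_power_aleph0]
      exact power_le_power_left two_ne_zero hJ
    have hRne : Nonempty R := ⟨⟨_, hRp⟩⟩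
    have h3 : #(R →₀ ℝ) ≤ 2 ^ (2 ^ #J : Cardinal.{u}) := by
      rw [mk_finsupp_lift_of_infinite']
      simp only [mk_real, lift_continuum, lift_uzero]
      exact max_le hRc (hc.trans h4)
    exact absurd hB (not_lt.2 (h1.trans h3))
  obtain ⟨a, ha⟩ := (Small.mono (hDs γ₁) (inter_subset_left (t := R))).exists_range
    ⟨S.pt, hDp γ₁, hRp⟩
  have haR : ∀ j, a j ∈ R := fun j => by
    have : a j ∈ range a := mem_range_self j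
    rw [ha] at this
    exact this.2
  have hP : ∀ b : J → C, (∀ j, b j ∈ R) → PP γ₁ a b (code S a (v γ₁)) := by
    intro b hb
    refine ⟨?_, ?_, ?_, rfl⟩
    · rw [ha]; exact inter_subset_left
    · rintro i hi ⟨j, rfl⟩
      rw [ha]
      exact ⟨hi, hb j⟩
    · intro h
      apply hγ₁
      intro x hx
      have := h hx
      rw [ha] at this
      exact this.2
  have hΦb : ∀ b : J → C, (∀ j, b j ∈ R) → ∃ γ, PP γ a b (code S a (v γ₁)) ∧ D γ ⊆ R :=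
    fun b hb => ⟨_, hΦ _ _ _ ⟨γ₁, hP b hb⟩, hRcl a b haR hb _⟩
  have h1R : ∀ γ, D γ ⊆ R → D γ₁ ∩ D γ ⊆ range a := by
    intro γ h x hx
    rw [ha]
    exact ⟨hx.1, h hx.2⟩
  obtain ⟨γ₂, hγ₂, hγ₂R⟩ := hΦb a haR
  obtain ⟨γ₃, hγ₃, hγ₃R⟩ := hΦb (dd γ₂) (fun j => hγ₂R (by
    have : dd γ₂ j ∈ range (dd γ₂) := mem_range_self j
    rwa [hdd] at this))
  obtain ⟨b, hb⟩ := ((hDs γ₂).union (hDs γ₃)).exists_range ⟨S.pt, Or.inl (hDp γ₂)⟩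
  obtain ⟨γ₄, hγ₄, hγ₄R⟩ := hΦb b (fun j => by
    have : b j ∈ range b := mem_range_self j
    rw [hb] at this
    rcases this with h | h
    · exact hγ₂R h
    · exact hγ₃R h)
  refine ⟨γ₁, γ₂, γ₃, γ₄, a, ?_, ⟨?_, hγ₂.1, hγ₃.1, hγ₄.1⟩, ⟨?_, hγ₂.2.2.1, hγ₃.2.2.1,
    hγ₄.2.2.1⟩, ⟨h1R _ hγ₂R, h1R _ hγ₃R, h1R _ hγ₄R, ?_, ?_, ?_⟩, hγ₂.2.2.2, hγ₃.2.2.2,
    hγ₄.2.2.2⟩
  · rw [ha]; exact ⟨hDp γ₁, hRp⟩
  · rw [ha]; exact inter_subset_left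
  · exact (hP a haR).2.2.1
  · rintro x ⟨h2, h3⟩
    exact hγ₃.2.1 x h3 (by rw [hdd]; exact h2)
  · rintro x ⟨h2, h4⟩
    exact hγ₄.2.1 x h4 (by rw [hb]; exact Or.inl h2)
  · rintro x ⟨h3, h4⟩
    exact hγ₄.2.1 x h4 (by rw [hb]; exact Or.inr h3)

open Cardinal in
theorem core (S : Sys C J) (hB : 2 ^ (2 ^ #J : Cardinal.{u}) < #(Bs S))
    (y₀ : C) (hy : S.dec y₀ = none) (hy' : y₀ ≠ S.pt) (v : Bs S → C →₀ ℝ)
    (h1 : ∀ γ δ, γ ≠ δ → 2 ≤ ‖io S (Finsupp.single y₀ 1 + (v γ - v δ))‖)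
    (h2 : ∀ γ δ, ‖io S (v γ - v δ)‖ ≤ 1)
    (h3 : ∀ γ₁ γ₂ γ₃ γ₄ : Bs S, γ₁ ≠ γ₂ → γ₁ ≠ γ₃ → γ₁ ≠ γ₄ → γ₂ ≠ γ₃ → γ₂ ≠ γ₄ → γ₃ ≠ γ₄ →
      ‖io S ((v γ₁ - v γ₂) + (v γ₃ - v γ₄))‖ ≤ 1) : False := by
  classical
  have hy1 : ∀ φ ∈ KK S, |φ y₀| ≤ 1 := fun φ hφ => by
    simpa using hφ.1.2 {y₀} (by simp [hy, hy'])
  have hv : Function.Injective v := by
    intro γ δ h
    by_contra hne
    have h4 := h1 γ δ hne
    rw [h, sub_self, add_zero] at h4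
    have h5 : ‖io S (Finsupp.single y₀ 1)‖ ≤ 1 := norm_io_le S fun φ hφ => by
      rw [ev_single]; exact hy1 φ hφ
    linarith
  let D : Bs S → Set C := fun γ => hcl S ({S.pt, y₀} ∪ ((v γ).support : Set C))
  have : Nonempty C := ⟨y₀⟩
  have hDv : ∀ γ, ((v γ).support : Set C) ⊆ D γ := fun γ x hx =>
    subset_hcl S _ (Or.inr hx)
  have hDp : ∀ γ, S.pt ∈ D γ := fun γ => subset_hcl S _ (Or.inl (by simp))
  have hDy : ∀ γ, y₀ ∈ D γ := fun γ => subset_hcl S _ (Or.inl (by simp))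
  have hDs : ∀ γ, Small J (D γ) := fun γ => small_hcl S (Small.of_countable
    (((Set.toFinite _).union (Finset.finite_toSet _)).countable))
  obtain ⟨γ₁, γ₂, γ₃, γ₄, a, hpa, ⟨a1, a2, a3, a4⟩, ⟨n1, n2, n3, n4⟩,
    ⟨i12, i13, i14, i23, i24, i34⟩, c2, c3, c4⟩ := exists_R S hB v hv D hDv hDp hDs
  have hya : y₀ ∈ range a := i12 ⟨hDy _, hDy _⟩
  have d12 : γ₁ ≠ γ₂ := fun h => n1 (fun x hx => i12 ⟨hx, h ▸ hx⟩)
  have d13 : γ₁ ≠ γ₃ := fun h => n1 (fun x hx => i13 ⟨hx, h ▸ hx⟩)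
  have d14 : γ₁ ≠ γ₄ := fun h => n1 (fun x hx => i14 ⟨hx, h ▸ hx⟩)
  have d23 : γ₂ ≠ γ₃ := fun h => n2 (fun x hx => i23 ⟨hx, h ▸ hx⟩)
  have d24 : γ₂ ≠ γ₄ := fun h => n2 (fun x hx => i24 ⟨hx, h ▸ hx⟩)
  have d34 : γ₃ ≠ γ₄ := fun h => n3 (fun x hx => i34 ⟨hx, h ▸ hx⟩)
  obtain ⟨ψ, hψ, hψn⟩ := exists_norm_io S (Finsupp.single y₀ 1 + (v γ₁ - v γ₂))
  have h4 := h1 γ₁ γ₂ d12
  rw [← hψn, map_add, ev_single] at h4
  have h5 := hy1 ψ hψ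
  have h6 : |ev ψ (v γ₁ - v γ₂)| ≤ 1 := (le_norm_io S _ hψ).trans (h2 _ _)
  have h7 := abs_add_le (ψ y₀) (ev ψ (v γ₁ - v γ₂))
  have h8 : 1 ≤ |ψ y₀| := by linarith
  have h9 : 1 ≤ |ev ψ (v γ₁ - v γ₂)| := by linarith
  have hz : ∀ b, S.dec b = none → b ∉ range a → ψ b = 0 := by
    intro b hb hba
    have hbp : b ≠ S.pt := fun h => hba (h ▸ hpa)
    have hby : y₀ ≠ b := fun h => hba (h ▸ hya)
    have h10 := hψ.1.2 {y₀, b} (by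
      intro c hc
      rcases Finset.mem_insert.1 hc with rfl | hc
      · exact ⟨hy, hy'⟩
      · rw [Finset.mem_singleton.1 hc]; exact ⟨hb, hbp⟩)
    rw [Finset.sum_pair hby] at h10
    have : |ψ b| ≤ 0 := by linarith
    exact abs_nonpos_iff.1 this
  have m1 : ((fun j => ψ (a j), ev ψ (v γ₁)) : (J → ℝ) × ℝ) ∈ code S a (v γ₁) :=
    ⟨ψ, hψ, fun _ => rfl, hz, rfl⟩
  have m2 : ((fun j => ψ (a j), ev ψ (v γ₂)) : (J → ℝ) × ℝ) ∈ code S a (v γ₂) :=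
    ⟨ψ, hψ, fun _ => rfl, hz, rfl⟩
  rw [← c3] at m1
  rw [c2, ← c4] at m2
  obtain ⟨ψ₃, k1, k2, k3, k4⟩ := m1
  obtain ⟨ψ₄, l1, l2, l3, l4⟩ := m2
  simp only at k2 k4 l2 l4
  let χ : C → ℝ := fun c => if c ∈ D γ₃ ∧ c ∉ range a then ψ₃ c else
    if c ∈ D γ₄ ∧ c ∉ range a then ψ₄ c else ψ c
  have χa : ∀ c ∈ range a, χ c = ψ c := by
    intro c hc
    simp only [χ]
    rw [if_neg (fun h => h.2 hc), if_neg (fun h => h.2 hc)]
  have χ1 : ∀ c ∈ D γ₁, χ c = ψ c := by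
    intro c hc
    by_cases hca : c ∈ range a
    · exact χa c hca
    · have e3 : c ∉ D γ₃ := fun h => hca (i13 ⟨hc, h⟩)
      have e4 : c ∉ D γ₄ := fun h => hca (i14 ⟨hc, h⟩)
      simp [χ, e3, e4]
  have χ2 : ∀ c ∈ D γ₂, χ c = ψ c := by
    intro c hc
    by_cases hca : c ∈ range a
    · exact χa c hca
    · have e3 : c ∉ D γ₃ := fun h => hca (i23 ⟨hc, h⟩)
      have e4 : c ∉ D γ₄ := fun h => hca (i24 ⟨hc, h⟩)
      simp [χ, e3, e4]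
  have χ3 : ∀ c ∈ D γ₃, χ c = ψ₃ c := by
    intro c hc
    by_cases hca : c ∈ range a
    · rw [χa c hca]
      obtain ⟨j, rfl⟩ := hca
      exact (k2 j).symm
    · simp only [χ]
      rw [if_pos ⟨hc, hca⟩]
  have χ4 : ∀ c ∈ D γ₄, χ c = ψ₄ c := by
    intro c hc
    by_cases hca : c ∈ range a
    · rw [χa c hca]
      obtain ⟨j, rfl⟩ := hca
      exact (l2 j).symm
    · have e3 : c ∉ D γ₃ := fun h => hca (i34 ⟨h, hc⟩)
      simp only [χ]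
      rw [if_neg (fun h => e3 h.1), if_pos ⟨hc, hca⟩]
  have χb : ∀ c, S.dec c = none → |χ c| ≤ |ψ c| := by
    intro c hc
    by_cases hca : c ∈ range a
    · rw [χa c hca]
    · simp only [χ]
      split_ifs
      · rw [k3 c hc hca]; simp
      · rw [l3 c hc hca]; simp
      · exact le_rfl
  have Dcl : ∀ γ, ∀ c ∈ D γ, ∀ G, S.dec c = some G → ∀ j, ∀ i ∈ (G j).1.support, i ∈ D γ :=
    fun γ c hc G hG j i hi => hcl_closed S _ hc hG j hi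
  obtain ⟨Ψ, hΨ, hΨe⟩ := exists_ext S (D γ₁ ∪ D γ₂ ∪ (D γ₃ ∪ D γ₄)) (by
      rintro c ((hc | hc) | (hc | hc)) _ G hG j i hi
      · exact Or.inl (Or.inl (Dcl _ c hc G hG j i hi))
      · exact Or.inl (Or.inr (Dcl _ c hc G hG j i hi))
      · exact Or.inr (Or.inl (Dcl _ c hc G hG j i hi))
      · exact Or.inr (Or.inr (Dcl _ c hc G hG j i hi))) χ (by
      have hle : ∀ c, S.dec c = none →
          |@ite ℝ (c ∈ D γ₁ ∪ D γ₂ ∪ (D γ₃ ∪ D γ₄)) (Classical.propDecidable _) (χ c) 0| ≤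
            |ψ c| := by
        intro c hc
        split_ifs
        · exact χb c hc
        · simp
      refine ⟨(hle _ S.dec_pt).trans hψ.1.1, fun s hs => ?_⟩
      exact (Finset.sum_le_sum fun c hc => hle c (hs c hc).1).trans (hψ.1.2 s hs)) (by
      rintro c ((hc | hc) | (hc | hc))
      · exact Cst_congr S (χ1 c hc).symm (fun _ G hG j i hi =>
          (χ1 i (Dcl _ c hc G hG j i hi)).symm) (hψ.2 c)
      · exact Cst_congr S (χ2 c hc).symm (fun _ G hG j i hi =>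
          (χ2 i (Dcl _ c hc G hG j i hi)).symm) (hψ.2 c)
      · exact Cst_congr S (χ3 c hc).symm (fun _ G hG j i hi =>
          (χ3 i (Dcl _ c hc G hG j i hi)).symm) (k1.2 c)
      · exact Cst_congr S (χ4 c hc).symm (fun _ G hG j i hi =>
          (χ4 i (Dcl _ c hc G hG j i hi)).symm) (l1.2 c))
  have e1 : ev Ψ (v γ₁) = ev ψ (v γ₁) := ev_congr fun i hi => by
    rw [hΨe i (Or.inl (Or.inl (hDv γ₁ hi))), χ1 i (hDv γ₁ hi)]
  have e2 : ev Ψ (v γ₂) = ev ψ (v γ₂) := ev_congr fun i hi => by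
    rw [hΨe i (Or.inl (Or.inr (hDv γ₂ hi))), χ2 i (hDv γ₂ hi)]
  have e3 : ev Ψ (v γ₃) = ev ψ (v γ₁) := by
    rw [← k4]
    exact ev_congr fun i hi => by
      rw [hΨe i (Or.inr (Or.inl (hDv γ₃ hi))), χ3 i (hDv γ₃ hi)]
  have e4 : ev Ψ (v γ₄) = ev ψ (v γ₂) := by
    rw [← l4]
    exact ev_congr fun i hi => by
      rw [hΨe i (Or.inr (Or.inr (hDv γ₄ hi))), χ4 i (hDv γ₄ hi)]
  have h10 := (le_norm_io S ((v γ₁ - v γ₂) + (v γ₃ - v γ₄)) hΨ).trans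
    (h3 γ₁ γ₂ γ₃ γ₄ d12 d13 d14 d23 d24 d34)
  rw [map_add, map_sub, map_sub, e1, e2, e3, e4, ← map_sub, ← two_mul, abs_mul, abs_two] at h10
  linarith

end Pool.Agent.H96gur
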