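import Pool.Agent.H96gur.Sys

set_option autoImplicit false

namespace Pool.Agent.H96gur

universe u v

open Set

variable {C J : Type u} [LinearOrder C] [WellFoundedLT C] [Nonempty J]

instance (S : Sys C J) : CompactSpace (KK S) := isCompact_iff_compactSpace.mp (KK_compact S)

instance (S : Sys C J) : Nonempty (KK S) := (KK_nonempty S).to_subtype

/-- the ambient Banach space -/
def Amb (S : Sys C J) : Type u := C(KK S, ℝ)

noncomputable instance (S : Sys C J) : NormedAddCommGroup (Amb S) :=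
  inferInstanceAs (NormedAddCommGroup C(KK S, ℝ))

noncomputable instance (S : Sys C J) : NormedSpace ℝ (Amb S) :=
  inferInstanceAs (NormedSpace ℝ C(KK S, ℝ))

instance (S : Sys C J) : CompleteSpace (Amb S) :=
  inferInstanceAs (CompleteSpace C(KK S, ℝ))

/-- evaluation map -/
noncomputable def ioc (S : Sys C J) : (C →₀ ℝ) →ₗ[ℝ] C(KK S, ℝ) where
  toFun v := ⟨fun φ => ev φ.1 v, (continuous_ev v).comp continuous_subtype_val⟩
  map_add' v w := by ext φ; simp
  map_smul' a v := by ext φ; simp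

/-- evaluation map -/
noncomputable def io (S : Sys C J) : (C →₀ ℝ) →ₗ[ℝ] Amb S := ioc S

/-- the space of the coding -/
noncomputable def XX (S : Sys C J) : Submodule ℝ (Amb S) := LinearMap.range (io S)

theorem norm_io_le (S : Sys C J) {v : C →₀ ℝ} {M : ℝ} (h : ∀ φ ∈ KK S, |ev φ v| ≤ M) :
    ‖io S v‖ ≤ M := by
  obtain ⟨φ, hφ⟩ := KK_nonempty S
  have hM : 0 ≤ M := (abs_nonneg _).trans (h φ hφ)
  exact (ContinuousMap.norm_le (ioc S v) hM).2 fun φ => h φ.1 φ.2

theorem le_norm_io (S : Sys C J) (v : C →₀ ℝ) {φ : C → ℝ} (h : φ ∈ KK S) :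
    |ev φ v| ≤ ‖io S v‖ := (ioc S v).norm_coe_le_norm ⟨φ, h⟩

theorem exists_norm_io (S : Sys C J) (v : C →₀ ℝ) : ∃ φ ∈ KK S, |ev φ v| = ‖io S v‖ := by
  obtain ⟨φ, hφ, hm⟩ := (KK_compact S).exists_isMaxOn (KK_nonempty S)
    ((continuous_ev v).abs.continuousOn)
  exact ⟨φ, hφ, le_antisymm (le_norm_io S v hφ) (norm_io_le S fun ψ hψ => hm hψ)⟩

omit [LinearOrder C] [WellFoundedLT C] in
theorem ev_of (G : (C →₀ ℝ) →ₗ[ℝ] ℝ) (v : C →₀ ℝ) :
    ev (fun c => G (Finsupp.single c 1)) v = G v := by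
  have : ev (fun c => G (Finsupp.single c 1)) = G := by
    refine Finsupp.lhom_ext' fun c => LinearMap.ext_ring ?_
    simp [ev, Finsupp.linearCombination_single]
  rw [this]

theorem functional_mem (S : Sys C J) (G : (C →₀ ℝ) →ₗ[ℝ] ℝ) (hG : ∀ v, |G v| ≤ ‖io S v‖) :
    (fun c => G (Finsupp.single c 1)) ∈ KK S := by
  refine ⟨⟨?_, fun s hs => ?_⟩, fun d => ⟨fun hg F hF j => ?_, fun hg hd => ?_⟩⟩
  · refine (hG _).trans (norm_io_le S fun φ hφ => ?_)
    rw [ev_single]
    exact hφ.1.1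
  · have h1 : ∑ c ∈ s, |G (Finsupp.single c 1)| =
        G (∑ c ∈ s, (SignType.sign (G (Finsupp.single c 1)) : ℝ) • Finsupp.single c 1) := by
      rw [map_sum]
      refine Finset.sum_congr rfl fun c _ => ?_
      rw [map_smul, smul_eq_mul, sign_mul_self]
    rw [h1]
    refine (le_abs_self _).trans ((hG _).trans (norm_io_le S fun φ hφ => ?_))
    rw [map_sum]
    refine (Finset.abs_sum_le_sum_abs _ _).trans
      ((Finset.sum_le_sum fun c _ => ?_).trans (hφ.1.2 s hs))
    rw [map_smul, smul_eq_mul, ev_single, abs_mul]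
    have : |(SignType.sign (G (Finsupp.single c 1)) : ℝ)| ≤ 1 := by
      rcases lt_trichotomy (G (Finsupp.single c (1:ℝ))) 0 with h | h | h <;> simp [h]
    exact (mul_le_mul_of_nonneg_right this (abs_nonneg _)).trans (by rw [one_mul])
  · rw [ev_of, ← map_add]
    refine (hG _).trans (norm_io_le S fun φ hφ => ?_)
    rw [map_add, ev_single]
    exact (hφ.2 d).1 hg F hF j
  · have := (hG (Finsupp.single d 1)).trans (norm_io_le (M := 0) S fun φ hφ => by
      rw [ev_single, (hφ.2 d).2 hg hd, abs_zero])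
    exact abs_nonpos_iff.1 this

/-- every extension datum has a code above its support -/
def Full (S : Sys C J) : Prop :=
  ∀ F : J → (C →₀ ℝ) × ℝ, ∃ c, S.dec c = some F ∧ ∀ j, ∀ i ∈ (F j).1.support, i < c

theorem exists_good (S : Sys C J) (hS : Full S) (F : J → (C →₀ ℝ) × ℝ)
    (hF : ∀ j k, ‖io S ((F j).1 - (F k).1)‖ ≤ (F j).2 + (F k).2) :
    ∃ c, Good S c ∧ S.dec c = some F := by
  obtain ⟨c, hc, hs⟩ := hS F
  refine ⟨c, (Good_iff S c).2 ⟨F, hc, hs, fun φ hb h j k => ?_⟩, hc⟩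
  obtain ⟨ψ, hψ, he⟩ := exists_ext_lt S c φ hb h
  rw [← ev_congr (fun i hi => he i (hs j i hi)), ← ev_congr (fun i hi => he i (hs k i hi)),
    ← map_sub]
  exact (le_norm_io S _ hψ).trans (hF j k)

theorem point_le (S : Sys C J) {c : C} (hg : Good S c) {F : J → (C →₀ ℝ) × ℝ}
    (hF : S.dec c = some F) (j : J) : ‖io S ((F j).1 + Finsupp.single c 1)‖ ≤ (F j).2 :=
  norm_io_le S fun φ hφ => by
    rw [map_add, ev_single]
    exact (hφ.2 c).1 hg F hF j

open Classical in
theorem point_ge (S : Sys C J) {c : C} (hg : Good S c) {F : J → (C →₀ ℝ) × ℝ}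
    (hF : S.dec c = some F) (G : (C →₀ ℝ) →ₗ[ℝ] ℝ) (hG : ∀ v, |G v| ≤ ‖io S v‖) (τ : ℝ)
    (hτ : ∀ j, |G (F j).1 + τ| ≤ (F j).2) :
    ∃ ψ ∈ KK S, (∀ j, ev ψ (F j).1 = G (F j).1) ∧ ψ c = τ := by
  have hm := functional_mem S G hG
  set γ : C → ℝ := fun c => G (Finsupp.single c 1) with hγ
  obtain ⟨ψ, hψ, he⟩ := exists_ext S {d | d ≤ c} (by
      intro d hd hg' G' hG' j i hi
      exact (hg'.supp hG' j hi).le.trans hd)
    (fun d => if d = c then τ else γ d) (by
      have hcn : S.dec c ≠ none := by rw [hF]; simp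
      refine ⟨?_, fun s hs => ?_⟩
      · have : S.pt ≠ c := fun h => hcn (h ▸ S.dec_pt)
        by_cases h : S.pt ≤ c
        · simpa [h, this] using hm.1.1
        · simp [h]
      · refine le_trans (Finset.sum_le_sum fun d hd => ?_) (hm.1.2 s hs)
        have : d ≠ c := fun h => hcn (h ▸ (hs d hd).1)
        by_cases h : d ≤ c
        · simp [h, this]
        · simp [h])
    (by
      intro d hd
      rcases eq_or_lt_of_le hd with rfl | hlt
      · refine ⟨fun _ G' hG' j => ?_, fun h => absurd hg h⟩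
        rw [hF] at hG'
        cases hG'
        have : ev (fun y => if y = d then τ else γ y) (F j).1 = G (F j).1 := by
          rw [← ev_of G]
          apply ev_congr
          intro i hi
          rw [if_neg (hg.supp hF j hi).ne]
        rw [this]
        simpa using hτ j
      · refine Cst_congr S (by rw [if_neg hlt.ne]) ?_ (hm.2 d)
        intro hg' G' hG' j i hi
        rw [if_neg ((hg'.supp hG' j hi).trans hlt).ne])
  refine ⟨ψ, hψ, fun j => ?_, ?_⟩
  · rw [← ev_of G]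
    apply ev_congr
    intro i hi
    have hlt := hg.supp hF j hi
    rw [he i hlt.le, if_neg hlt.ne]
  · rw [he c le_rfl, if_pos rfl]

theorem one_dim (S : Sys C J) (hS : Full S) {T : Type v} [NormedAddCommGroup T]
    [NormedSpace ℝ T] (P : Submodule ℝ T) (d : J → P) (hd : DenseRange d)
    (w : P →ₗᵢ[ℝ] XX S) (t : T) :
    ∃ e : XX S, ∀ s : P, ‖w s + e‖ = ‖(s : T) + t‖ := by
  have hv : ∀ j, ∃ v, io S v = (w (d j) : Amb S) := fun j => (w (d j)).2
  choose v hv using hv
  obtain ⟨c, hg, hF⟩ := exists_good S hS (fun j => (v j, ‖((d j : P) : T) + t‖)) (by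
    intro j k
    simp only
    rw [map_sub, hv, hv]
    have h1 : ‖(w (d j) : Amb S) - w (d k)‖ = ‖((d j : P) : T) - d k‖ := by
      have : ‖w (d j - d k)‖ = ‖d j - d k‖ := w.norm_map _
      rw [map_sub] at this
      exact this
    rw [h1]
    calc ‖((d j : P) : T) - d k‖ = ‖(((d j : P) : T) + t) - (d k + t)‖ := by congr 1; abel
      _ ≤ _ := norm_sub_le _ _)
  refine ⟨⟨io S (Finsupp.single c 1), LinearMap.mem_range_self _ _⟩, ?_⟩
  have key : ∀ j, ‖w (d j) + ⟨io S (Finsupp.single c 1), LinearMap.mem_range_self _ _⟩‖ =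
      ‖((d j : P) : T) + t‖ := by
    intro j
    have h0 : ‖w (d j) + ⟨io S (Finsupp.single c 1), LinearMap.mem_range_self _ _⟩‖ =
        ‖io S (v j + Finsupp.single c 1)‖ := by
      rw [map_add, hv]; rfl
    rw [h0]
    refine le_antisymm (point_le S hg hF j) ?_
    obtain ⟨g, hg1, hg2⟩ := exists_dual_vector'' ℝ (((d j : P) : T) + t)
    let W : P →ₗᵢ[ℝ] Amb S := (XX S).subtypeₗᵢ.comp w
    let f : LinearMap.range W.toLinearMap →L[ℝ] ℝ :=
      (g.comp P.subtypeL).comp (W.equivRange.symm : _ →L[ℝ] P)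
    obtain ⟨Gx, hG1, hG2⟩ := exists_extension_norm_eq (LinearMap.range W.toLinearMap) f
    have hf : ‖f‖ ≤ 1 := by
      refine ContinuousLinearMap.opNorm_le_bound _ zero_le_one fun x => ?_
      calc ‖f x‖ = ‖g ((W.equivRange.symm x : P) : T)‖ := rfl
        _ ≤ ‖g‖ * ‖((W.equivRange.symm x : P) : T)‖ := g.le_opNorm _
        _ ≤ 1 * ‖((W.equivRange.symm x : P) : T)‖ := by gcongr
        _ = 1 * ‖x‖ := by
            rw [Submodule.norm_coe, LinearIsometryEquiv.norm_map]
    have hGW : ∀ p : P, Gx (w p : Amb S) = g p := by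
      intro p
      have h3 := hG1 (W.equivRange p)
      have h4 : (W.equivRange p : Amb S) = w p := rfl
      rw [h4] at h3
      rw [h3]
      change g ((W.equivRange.symm (W.equivRange p) : P) : T) = g p
      rw [LinearIsometryEquiv.symm_apply_apply]
    obtain ⟨ψ, hψ, h5, h6⟩ := point_ge S hg hF (Gx.toLinearMap.comp (io S)) (by
        intro x
        have := Gx.le_opNorm (io S x)
        rw [hG2] at this
        exact this.trans ((mul_le_mul_of_nonneg_right hf (norm_nonneg _)).trans (by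
          rw [one_mul]))) (g t) (by
        intro k
        simp only [LinearMap.comp_apply]
        change |Gx (io S (v k)) + g t| ≤ _
        rw [hv, hGW, ← map_add]
        exact (g.le_opNorm _).trans ((mul_le_mul_of_nonneg_right hg1 (norm_nonneg _)).trans (by
          rw [one_mul])))
    have h7 := le_norm_io S (v j + Finsupp.single c 1) hψ
    rw [map_add, ev_single, h6] at h7
    have h8 := h5 j
    simp only at h8
    rw [h8] at h7
    change |Gx (io S (v j)) + g t| ≤ _ at h7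
    rw [hv, hGW, ← map_add, hg2] at h7
    refine le_trans ?_ h7
    exact le_abs_self _
  intro s
  have hc1 : Continuous fun s : P =>
      ‖w s + ⟨io S (Finsupp.single c 1), LinearMap.mem_range_self _ _⟩‖ :=
    (w.continuous.add continuous_const).norm
  have hc2 : Continuous fun s : P => ‖(s : T) + t‖ :=
    (continuous_subtype_val.add continuous_const).norm
  exact congrFun (hd.equalizer hc1 hc2 (funext key)) s

theorem one_dim' (S : Sys C J) (hS : Full S) {T : Type v} [NormedAddCommGroup T]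
    [NormedSpace ℝ T] (P : Submodule ℝ T) (d : J → P) (hd : DenseRange d)
    (w : P →ₗᵢ[ℝ] XX S) (t : T) :
    ∃ e : XX S, ∀ (s : P) (a : ℝ), ‖w s + a • e‖ = ‖(s : T) + a • t‖ := by
  obtain ⟨e, he⟩ := one_dim S hS P d hd w t
  refine ⟨e, fun s a => ?_⟩
  by_cases ha : a = 0
  · subst ha
    simp
  · have h1 : w s + a • e = a • (w (a⁻¹ • s) + e) := by
      rw [smul_add, map_smul, smul_smul, mul_inv_cancel₀ ha, one_smul]
    have h2 : (s : T) + a • t = a • (((a⁻¹ • s : P) : T) + t) := by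
      rw [smul_add, Submodule.coe_smul, smul_smul, mul_inv_cancel₀ ha, one_smul]
    rw [h1, h2, norm_smul, norm_smul, he]

omit [Nonempty J] in
theorem exists_dense_sub [Infinite J] {T : Type v} [PseudoMetricSpace T] (d : J → T)
    (hd : DenseRange d) (P : Set T) (hP : P.Nonempty) : ∃ d' : J → P, DenseRange d' := by
  classical
  obtain ⟨e⟩ : Nonempty (J ≃ J × ℕ) := by
    rw [← Cardinal.lift_mk_eq']
    simp [Cardinal.mul_aleph0_eq]
  obtain ⟨p0, hp0⟩ := hP
  let q : J × ℕ → P := fun jn =>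
    if h : ∃ x ∈ P, dist x (d jn.1) < 1 / ((jn.2 : ℝ) + 1) then ⟨h.choose, h.choose_spec.1⟩
    else ⟨p0, hp0⟩
  refine ⟨q ∘ e, ?_⟩
  rw [Metric.denseRange_iff]
  intro x r hr
  obtain ⟨n, hn⟩ := exists_nat_one_div_lt (half_pos hr)
  obtain ⟨j, hj⟩ := Metric.denseRange_iff.1 hd x (1 / ((n : ℝ) + 1)) (by positivity)
  refine ⟨e.symm (j, n), ?_⟩
  have hex : ∃ x ∈ P, dist x (d j) < 1 / ((n : ℝ) + 1) := ⟨x, x.2, hj⟩
  have hq : q (j, n) = ⟨hex.choose, hex.choose_spec.1⟩ := dif_pos hex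
  rw [Function.comp_apply, Equiv.apply_symm_apply, hq]
  have h1 : dist hex.choose (d j) < 1 / ((n : ℝ) + 1) := hex.choose_spec.2
  calc dist x ⟨hex.choose, hex.choose_spec.1⟩ = dist (x : T) hex.choose := rfl
    _ ≤ dist (x : T) (d j) + dist (d j) hex.choose := dist_triangle _ _ _
    _ < r := by rw [dist_comm (d j)]; linarith

theorem univ_disp [Infinite J] (S : Sys C J) (hS : Full S) {T : Type v} [NormedAddCommGroup T]
    [NormedSpace ℝ T] (dT : J → T) (hdT : DenseRange dT) (P : Submodule ℝ T)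
    (f : P →ₗᵢ[ℝ] XX S) : ∃ g : T →ₗᵢ[ℝ] XX S, ∀ s : P, g s = f s := by
  let A : Set (T →ₗ.[ℝ] XX S) := {p | ∀ x : p.domain, ‖p x‖ = ‖(x : T)‖}
  have hAc : ∀ c, c ⊆ A → IsChain (· ≤ ·) c → ∀ y ∈ c, ∃ ub ∈ A, ∀ z ∈ c, z ≤ ub := by
    intro c hcs c_chain y hy
    have cne : c.Nonempty := ⟨y, hy⟩
    have hcd : DirectedOn (· ≤ ·) c := c_chain.directedOn
    refine ⟨LinearPMap.sSup c hcd, ?_, fun _ ↦ LinearPMap.le_sSup hcd⟩
    rintro ⟨x, hx⟩
    rcases LinearPMap.mem_domain_sSup_iff cne hcd |>.mp hx with ⟨f, hfc, hfx⟩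
    have : f ≤ LinearPMap.sSup c hcd := LinearPMap.le_sSup _ hfc
    have h1 := hcs hfc ⟨x, hfx⟩
    have h2 : f ⟨x, hfx⟩ = (LinearPMap.sSup c hcd) ⟨x, hx⟩ := this.2 rfl
    rw [← h2]
    exact h1
  let p0 : T →ₗ.[ℝ] XX S := ⟨P, f.toLinearMap⟩
  have hp0 : p0 ∈ A := fun x => f.norm_map x
  obtain ⟨q, hpq, hqA⟩ := zorn_le_nonempty₀ A hAc p0 hp0
  have htop : q.domain = ⊤ := by
    rw [Submodule.eq_top_iff']
    intro t
    by_contra ht
    obtain ⟨d, hd⟩ := exists_dense_sub dT hdT (q.domain : Set T) ⟨0, q.domain.zero_mem⟩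
    let w : q.domain →ₗᵢ[ℝ] XX S := ⟨q.toFun, fun x => hqA.1 x⟩
    obtain ⟨e, he⟩ := one_dim' S hS q.domain d hd w t
    have h1 : q.supSpanSingleton t e ht ∈ A := by
      rintro ⟨x, hx⟩
      obtain ⟨s, hs, a, rfl⟩ : ∃ s ∈ q.domain, ∃ a : ℝ, s + a • t = x := by
        rw [LinearPMap.domain_supSpanSingleton, Submodule.mem_sup] at hx
        obtain ⟨s, hs, z, hz, rfl⟩ := hx
        obtain ⟨a, rfl⟩ := Submodule.mem_span_singleton.1 hz
        exact ⟨s, hs, a, rfl⟩
      rw [LinearPMap.supSpanSingleton_apply_mk q t e ht s hs a]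
      exact he ⟨s, hs⟩ a
    have h2 : q ≤ q.supSpanSingleton t e ht := LinearPMap.left_le_sup _ _ _
    have h3 := hqA.2 h1 h2
    apply ht
    apply h3.1
    rw [LinearPMap.domain_supSpanSingleton]
    exact Submodule.mem_sup_right (Submodule.mem_span_singleton_self t)
  refine ⟨⟨q.toFun.comp (LinearEquiv.ofTop q.domain htop).symm.toLinearMap, fun x => ?_⟩,
    fun s => ?_⟩
  · exact hqA.1 ⟨x, _⟩
  · exact (hpq.2 (x := s) (y := ⟨s, by rw [htop]; trivial⟩) rfl).symm

theorem XX_closed [Infinite J] (S : Sys C J) (hS : Full S) :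
    IsClosed (XX S : Set (Amb S)) := by
  obtain ⟨n, hn⟩ : ∃ n : J → ℕ, Function.Surjective n := by
    let f := Infinite.natEmbedding J
    exact ⟨Function.invFun f, Function.invFun_surjective f.injective⟩
  rw [← closure_subset_iff_isClosed]
  intro x hx
  have h1 : ∀ k : ℕ, ∃ v, ‖io S v - x‖ < 1 / ((k : ℝ) + 1) := by
    intro k
    obtain ⟨y, ⟨v, rfl⟩, h⟩ := Metric.mem_closure_iff.1 hx (1 / ((k : ℝ) + 1)) (by positivity)
    exact ⟨v, by rw [dist_comm, dist_eq_norm] at h; exact h⟩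
  choose v hv using h1
  obtain ⟨c, hg, hF⟩ := exists_good S hS (fun j => (-v (n j), 1 / ((n j : ℝ) + 1))) (by
    intro j k
    simp only
    calc ‖io S (-v (n j) - -v (n k))‖ = ‖(io S (v (n k)) - x) - (io S (v (n j)) - x)‖ := by
          congr 1
          rw [map_sub, map_neg, map_neg]
          abel
      _ ≤ _ := (norm_sub_le _ _).trans (by
          have h1 := (hv (n k)).le
          have h2 := (hv (n j)).le
          linarith))
  have h2 : ∀ k : ℕ, ‖io S (Finsupp.single c 1) - x‖ ≤ 2 * (1 / ((k : ℝ) + 1)) := by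
    intro k
    obtain ⟨j, rfl⟩ := hn k
    have h3 := point_le S hg hF j
    simp only at h3
    calc ‖io S (Finsupp.single c 1) - x‖ =
        ‖io S (-v (n j) + Finsupp.single c 1) + (io S (v (n j)) - x)‖ := by
          congr 1
          rw [map_add, map_neg]
          abel
      _ ≤ _ := (norm_add_le _ _).trans (by
          have h2 := (hv (n j)).le
          linarith)
  have h3 : Filter.Tendsto (fun k : ℕ => 2 * (1 / ((k : ℝ) + 1))) Filter.atTop (nhds (2 * 0)) :=
    tendsto_one_div_add_atTop_nhds_zero_nat.const_mul 2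
  have h4 : ‖io S (Finsupp.single c 1) - x‖ ≤ 2 * 0 := ge_of_tendsto' h3 h2
  have h5 : io S (Finsupp.single c 1) = x := by
    rw [mul_zero] at h4
    exact sub_eq_zero.1 (norm_le_zero_iff.1 h4)
  exact ⟨_, h5⟩

end Pool.Agent.H96gur
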