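import Mathlib

set_option autoImplicit false

namespace Pool.Agent.H96gur

universe u

open Set

/-- A coding of one-point extension data: `dec c = none` marks a base code. -/
structure Sys (C J : Type u) where
  dec : C → Option (J → (C →₀ ℝ) × ℝ)
  pt : C
  dec_pt : dec pt = none

variable {C J : Type u}

/-- pairing of a function on codes with a finite combination of codes -/
noncomputable abbrev ev (φ : C → ℝ) : (C →₀ ℝ) →ₗ[ℝ] ℝ := Finsupp.linearCombination ℝ φ

theorem ev_congr {φ ψ : C → ℝ} {v : C →₀ ℝ} (h : ∀ i ∈ v.support, φ i = ψ i) :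
    ev φ v = ev ψ v := by
  simp only [ev, Finsupp.linearCombination_apply, Finsupp.sum]
  exact Finset.sum_congr rfl fun i hi => by rw [h i hi]

theorem ev_single (φ : C → ℝ) (c : C) : ev φ (Finsupp.single c 1) = φ c := by
  simp [ev, Finsupp.linearCombination_single]

/-- the base constraint -/
def Base (S : Sys C J) (φ : C → ℝ) : Prop :=
  |φ S.pt| ≤ 1 ∧
    ∀ s : Finset C, (∀ c ∈ s, S.dec c = none ∧ c ≠ S.pt) → ∑ c ∈ s, |φ c| ≤ 1

/-- the constraint at a code -/
def Cst (S : Sys C J) (g : Prop) (φ : C → ℝ) (d : C) : Prop :=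
  (g → ∀ G, S.dec d = some G → ∀ j, |ev φ (G j).1 + φ d| ≤ (G j).2) ∧
    (¬ g → S.dec d ≠ none → φ d = 0)

theorem Cst_congr (S : Sys C J) {g : Prop} {φ ψ : C → ℝ} {d : C}
    (h : φ d = ψ d)
    (h' : g → ∀ G, S.dec d = some G → ∀ j, ∀ i ∈ (G j).1.support, φ i = ψ i)
    (hc : Cst S g φ d) : Cst S g ψ d := by
  refine ⟨fun hg G hG j => ?_, fun hg hd => ?_⟩
  · have := hc.1 hg G hG j
    rwa [ev_congr (h' hg G hG j), h] at this
  · rw [← h]; exact hc.2 hg hd

variable [LinearOrder C] [WellFoundedLT C]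

/-- admissible codes -/
def Good (S : Sys C J) : C → Prop :=
  WellFounded.fix (wellFounded_lt (α := C)) fun c rec =>
    ∃ F, S.dec c = some F ∧ (∀ j, ∀ i ∈ (F j).1.support, i < c) ∧
    ∀ φ : C → ℝ, Base S φ → (∀ d, ∀ h : d < c, Cst S (rec d h) φ d) →
      ∀ j k, |ev φ (F j).1 - ev φ (F k).1| ≤ (F j).2 + (F k).2

theorem Good_iff (S : Sys C J) (c : C) : Good S c ↔
    ∃ F, S.dec c = some F ∧ (∀ j, ∀ i ∈ (F j).1.support, i < c) ∧
    ∀ φ : C → ℝ, Base S φ → (∀ d, d < c → Cst S (Good S d) φ d) →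
      ∀ j k, |ev φ (F j).1 - ev φ (F k).1| ≤ (F j).2 + (F k).2 := by
  conv_lhs => rw [Good, WellFounded.fix_eq]
  rfl

/-- the set of admissible functionals -/
def KK (S : Sys C J) : Set (C → ℝ) := {φ | Base S φ ∧ ∀ d, Cst S (Good S d) φ d}

theorem Good.supp {S : Sys C J} {c : C} (h : Good S c) {G : J → (C →₀ ℝ) × ℝ}
    (hG : S.dec c = some G) (j : J) {i : C} (hi : i ∈ (G j).1.support) : i < c := by
  obtain ⟨F, hF, h1, -⟩ := (Good_iff S c).1 h
  rw [hF] at hG
  cases hG
  exact h1 j i hi

open Classical in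
/-- one step of the recursive extension -/
noncomputable def extStep (S : Sys C J) (D : Set C) (φ ψ : C → ℝ) (c : C) : ℝ :=
  if c ∈ D then φ c else
    if Good S c then
      (match S.dec c with
      | none => 0
      | some F => ⨆ j, (-(F j).2 - ev ψ (F j).1))
    else 0

open Classical in
/-- the recursive extension -/
noncomputable def extFun (S : Sys C J) (D : Set C) (φ : C → ℝ) : C → ℝ :=
  WellFounded.fix (wellFounded_lt (α := C)) fun c rec =>
    extStep S D φ (fun y => if hy : y < c then rec y hy else 0) c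

open Classical in
theorem extFun_eq (S : Sys C J) (D : Set C) (φ : C → ℝ) (c : C) : extFun S D φ c =
    extStep S D φ (fun y => if y < c then extFun S D φ y else 0) c := by
  conv_lhs => rw [extFun, WellFounded.fix_eq]
  rfl

theorem extFun_mem (S : Sys C J) (D : Set C) (φ : C → ℝ) {c : C} (h : c ∈ D) :
    extFun S D φ c = φ c := by
  rw [extFun_eq, extStep, if_pos h]

theorem extFun_good (S : Sys C J) (D : Set C) (φ : C → ℝ) {c : C} (h : c ∉ D)
    (hg : Good S c) {F : J → (C →₀ ℝ) × ℝ} (hF : S.dec c = some F) :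
    extFun S D φ c = ⨆ j, (-(F j).2 - ev (extFun S D φ) (F j).1) := by
  rw [extFun_eq, extStep, if_neg h, if_pos hg, hF]
  simp only
  congr 1
  funext j
  congr 1
  apply ev_congr
  intro i hi
  simp [hg.supp hF j hi]

theorem extFun_bad (S : Sys C J) (D : Set C) (φ : C → ℝ) {c : C} (h : c ∉ D)
    (hg : ¬ Good S c) : extFun S D φ c = 0 := by
  rw [extFun_eq, extStep, if_neg h, if_neg hg]

theorem not_good_base (S : Sys C J) {c : C} (h : S.dec c = none) : ¬ Good S c := by
  intro hg
  obtain ⟨F, hF, -⟩ := (Good_iff S c).1 hg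
  rw [hF] at h
  cases h

open Classical in
theorem exists_ext [Nonempty J] (S : Sys C J) (D : Set C)
    (hD : ∀ c ∈ D, Good S c → ∀ G, S.dec c = some G → ∀ j, ∀ i ∈ (G j).1.support, i ∈ D)
    (φ : C → ℝ) (hb : Base S (fun c => if c ∈ D then φ c else 0))
    (hc : ∀ c ∈ D, Cst S (Good S c) φ c) :
    ∃ ψ ∈ KK S, ∀ c ∈ D, ψ c = φ c := by
  have hbase : ∀ c, S.dec c = none → extFun S D φ c = if c ∈ D then φ c else 0 := by
    intro c h
    by_cases hcD : c ∈ D
    · rw [extFun_mem S D φ hcD, if_pos hcD]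
    · rw [extFun_bad S D φ hcD (not_good_base S h), if_neg hcD]
  have hB : Base S (extFun S D φ) := by
    refine ⟨?_, fun s hs => ?_⟩
    · rw [hbase _ S.dec_pt]; exact hb.1
    · rw [Finset.sum_congr rfl fun c hc => by rw [hbase c (hs c hc).1]]
      exact hb.2 s hs
  have hC : ∀ c, Cst S (Good S c) (extFun S D φ) c := by
    intro c
    induction c using WellFoundedLT.induction with
    | _ c ih =>
      by_cases hcD : c ∈ D
      · refine Cst_congr S (extFun_mem S D φ hcD).symm ?_ (hc c hcD)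
        intro hg G hG j i hi
        exact (extFun_mem S D φ (hD c hcD hg G hG j i hi)).symm
      · by_cases hg : Good S c
        · obtain ⟨F, hF, h1, h2⟩ := (Good_iff S c).1 hg
          have h3 := h2 _ hB ih
          refine ⟨fun _ G hG j => ?_, fun h => absurd hg h⟩
          rw [hF] at hG
          cases hG
          rw [extFun_good S D φ hcD hg hF]
          have hle : ∀ k, -(F k).2 - ev (extFun S D φ) (F k).1 ≤
              (F j).2 - ev (extFun S D φ) (F j).1 := by
            intro k
            have := (abs_le.1 (h3 j k)).2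
            linarith
          rw [abs_le]
          constructor
          · have : -(F j).2 - ev (extFun S D φ) (F j).1 ≤
              ⨆ k, (-(F k).2 - ev (extFun S D φ) (F k).1) :=
              le_ciSup (f := fun k => (-(F k).2 - ev (extFun S D φ) (F k).1))
                ⟨_, by rintro _ ⟨k, rfl⟩; exact hle k⟩ j
            linarith
          · have : (⨆ k, (-(F k).2 - ev (extFun S D φ) (F k).1)) ≤
              (F j).2 - ev (extFun S D φ) (F j).1 := ciSup_le hle
            linarith
        · exact ⟨fun h => absurd h hg, fun _ _ => extFun_bad S D φ hcD hg⟩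
  exact ⟨extFun S D φ, ⟨hB, hC⟩, fun c h => extFun_mem S D φ h⟩

/-- every point of a lower set extends -/
theorem exists_ext_lt [Nonempty J] (S : Sys C J) (c : C) (φ : C → ℝ) (hb : Base S φ)
    (hc : ∀ d < c, Cst S (Good S d) φ d) :
    ∃ ψ ∈ KK S, ∀ d < c, ψ d = φ d := by
  classical
  apply exists_ext S {d | d < c} _ φ _ hc
  · intro d hd hg G hG j i hi
    exact lt_trans (hg.supp hG j hi) hd
  · refine ⟨?_, fun s hs => ?_⟩
    · by_cases h : S.pt < c
      · simpa [h] using hb.1
      · simp [h]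
    · refine le_trans (Finset.sum_le_sum fun d _ => ?_) (hb.2 s hs)
      by_cases h : d < c
      · simp [h]
      · simp [h]

omit [LinearOrder C] [WellFoundedLT C] in
theorem base_zero (S : Sys C J) : Base S (fun _ : C => (0 : ℝ)) := by
  refine ⟨by simp, fun s _ => by simp⟩

theorem KK_nonempty [Nonempty J] (S : Sys C J) : (KK S).Nonempty := by
  obtain ⟨ψ, h, -⟩ := exists_ext S ∅ (by simp) 0 (by simpa using base_zero S) (by simp)
  exact ⟨ψ, h⟩

theorem KK_bdd [Nonempty J] (S : Sys C J) (c : C) : ∃ B : ℝ, ∀ φ ∈ KK S, |φ c| ≤ B := by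
  induction c using WellFoundedLT.induction with
  | _ c ih =>
    by_cases hg : Good S c
    · obtain ⟨F, hF, h1, -⟩ := (Good_iff S c).1 hg
      have j : J := Classical.arbitrary J
      choose! B hB using ih
      refine ⟨(F j).2 + ∑ i ∈ (F j).1.support, |(F j).1 i| * B i, fun φ hφ => ?_⟩
      have h2 := (hφ.2 c).1 hg F hF j
      have h3 : |ev φ (F j).1| ≤ ∑ i ∈ (F j).1.support, |(F j).1 i| * B i := by
        simp only [ev, Finsupp.linearCombination_apply, Finsupp.sum, smul_eq_mul]
        refine (Finset.abs_sum_le_sum_abs _ _).trans (Finset.sum_le_sum fun i hi => ?_)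
        rw [abs_mul]
        exact mul_le_mul_of_nonneg_left (hB i (h1 j i hi) φ hφ) (abs_nonneg _)
      rw [abs_le] at h2 h3 ⊢
      constructor <;> linarith [h2.1, h2.2, h3.1, h3.2]
    · by_cases hn : S.dec c = none
      · refine ⟨1, fun φ hφ => ?_⟩
        by_cases hp : c = S.pt
        · rw [hp]; exact hφ.1.1
        · simpa using hφ.1.2 {c} (by simp [hn, hp])
      · exact ⟨0, fun φ hφ => by rw [(hφ.2 c).2 hg hn]; simp⟩

omit [LinearOrder C] [WellFoundedLT C] in
theorem continuous_ev (v : C →₀ ℝ) : Continuous fun φ : C → ℝ => ev φ v := by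
  simp only [ev, Finsupp.linearCombination_apply, Finsupp.sum, smul_eq_mul]
  fun_prop

theorem KK_closed (S : Sys C J) : IsClosed (KK S) := by
  have : KK S = {φ | |φ S.pt| ≤ 1} ∩
      (⋂ s : Finset C, {φ | (∀ c ∈ s, S.dec c = none ∧ c ≠ S.pt) → ∑ c ∈ s, |φ c| ≤ 1}) ∩
      (⋂ d : C, ({φ | Good S d → ∀ G, S.dec d = some G → ∀ j, |ev φ (G j).1 + φ d| ≤ (G j).2} ∩
        {φ | ¬ Good S d → S.dec d ≠ none → φ d = 0})) := by
    ext φ
    simp only [KK, Base, Cst, mem_ofPred_eq, mem_inter_iff, mem_iInter]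
  rw [this]
  refine ((isClosed_le (by fun_prop) (by fun_prop)).inter (isClosed_iInter fun s => ?_)).inter
    (isClosed_iInter fun d => IsClosed.inter ?_ ?_)
  · by_cases h : ∀ c ∈ s, S.dec c = none ∧ c ≠ S.pt
    · have : {φ : C → ℝ | (∀ c ∈ s, S.dec c = none ∧ c ≠ S.pt) → ∑ c ∈ s, |φ c| ≤ 1} =
        {φ | ∑ c ∈ s, |φ c| ≤ 1} := by
        ext φ; exact ⟨fun h' => h' h, fun h' _ => h'⟩
      rw [this]
      exact isClosed_le (by fun_prop) (by fun_prop)
    · have : {φ : C → ℝ | (∀ c ∈ s, S.dec c = none ∧ c ≠ S.pt) → ∑ c ∈ s, |φ c| ≤ 1} = univ := by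
        ext φ; exact ⟨fun _ => trivial, fun _ h' => absurd h' h⟩
      rw [this]
      exact isClosed_univ
  · simp only [ofPred_forall]
    refine isClosed_iInter fun _ => isClosed_iInter fun G => isClosed_iInter fun _ =>
      isClosed_iInter fun j => ?_
    exact isClosed_le (((continuous_ev _).add (continuous_apply d)).abs) continuous_const
  · simp only [ofPred_forall]
    refine isClosed_iInter fun _ => isClosed_iInter fun _ => ?_
    exact isClosed_eq (continuous_apply d) continuous_const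

theorem KK_compact [Nonempty J] (S : Sys C J) : IsCompact (KK S) := by
  choose B hB using KK_bdd S
  refine IsCompact.of_isClosed_subset (isCompact_univ_pi fun c : C => isCompact_Icc
    (a := -(B c)) (b := B c)) (KK_closed S) ?_
  intro φ hφ c _
  exact abs_le.1 (hB c φ hφ)

end Pool.Agent.H96gur
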